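import Pool.Agent.H645.FJ

/-! # Degrees divisible by a power of 6, and solvable groups

The refutation of the evasiveness conjecture in the library uses an action of the alternating group
on five points: its transitive functions have non-solvable groups and degrees `n` which are divisible
by high powers of 2, 3 and 5. Here only the primes 2 and 3 are needed, and the groups are solvable of
derived length at most 3: there is a number `A` such that for all multiples `n` of `6 ^ A`, in
particular for all `n = 2 ^ a * 3 ^ b` with `a, b ≥ A`, there is a non-constant monotone Boolean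
function of `n` variables which is invariant under such a transitive group and not evasive. For prime powers `n` the
conjecture is true (Rivest and Vuillemin), so two primes is the least possible number.

The proof: the join of two points, of a complex on the 12 lines of the affine plane of order 3 (whose
reduced integral homology is of order 3) and of the projective plane with 6 vertices is a complex `K`
with 20 vertices on which a metabelian group of order `2 ^ a * 3 ^ b` acts without a fixed nonempty
face; `K` is contractible, which is shown by an explicit sequence of several thousand expansions,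
collapses and gluings of cones checked by the kernel (`Pool/Agent/H645/EG.lean` to `EL.lean`), and it
follows that a simplex collapses to `K` (`EA.lean` to `EF.lean`). The construction of the library is
then carried out for general complexes and groups (`FA.lean`), keeping track of the groups
(`FF.lean` to `FJ.lean`).

Definition (`Pool/Agent/H645/SDef.lean`): `SShallow n k` says that some non-constant monotone
Boolean function `f` of `n` variables is invariant under a transitive group `Γ` of permutations of
the variables which is solvable of derived length at most 3, and is computed by a deterministic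
decision tree of depth at most `k`, i.e. has `D(f) ≤ k`. -/

set_option autoImplicit false

namespace Pool.Agent.Results.MP_d4e2f9_lc.PowersOfSix

open Pool.Agent.H645.Gp (SShallow)
open Pool.Agent.H645.Ev (main_mS weakS gapS sshallow_mono)

/-- There is a number `A ≥ 1` with the following properties.
1. For every positive multiple `n` of `6 ^ A` there is a non-constant monotone Boolean function of
`n` variables, invariant under a transitive solvable group of derived length at most 3, with
`D(f) ≤ n - n / 6 ^ A`; in particular it is not evasive.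
2. In particular for all `a, b ≥ A` there is such a function of `n = 2 ^ a * 3 ^ b` variables which is
not evasive, `D(f) ≤ n - 1`.
3. Weak evasiveness fails for all `n` divisible by a sufficiently high power of `6`: if `6 ^ j`
divides `n`, `j ≥ A` and `n ≤ 6 ^ (C j)` then some such function of `n` variables has
`D(f) < n ^ (1 - 1 / (8 A C 6 ^ A))`.
4. In particular (`C = 1`) this holds for all the numbers `n = 6 ^ j` with `j ≥ A`. -/
theorem result : ∃ A : ℕ, 1 ≤ A ∧
    (∀ n : ℕ, 1 ≤ n → 6 ^ A ∣ n → SShallow n (n - n / 6 ^ A)) ∧
    (∀ a b : ℕ, A ≤ a → A ≤ b → SShallow (2 ^ a * 3 ^ b) (2 ^ a * 3 ^ b - 1)) ∧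
    (∀ C n j : ℕ, 1 ≤ C → 1 ≤ n → A ≤ j → 6 ^ j ∣ n → n ≤ 6 ^ (C * j) →
      ∃ k : ℕ, SShallow n k ∧
        (k : ℝ) < (n : ℝ) ^ (1 - 1 / (8 * A * C * 6 ^ A : ℝ))) ∧
    (∀ j : ℕ, A ≤ j → ∃ k : ℕ, SShallow (6 ^ j) k ∧
        (k : ℝ) < ((6 ^ j : ℕ) : ℝ) ^ (1 - 1 / (8 * A * 6 ^ A : ℝ))) := by
  obtain ⟨m, A, hm, hA, hd, h⟩ := main_mS
  have h1 : ∀ n : ℕ, 1 ≤ n → 6 ^ A ∣ n → SShallow n (n - n / 6 ^ A) := fun n hn hdn =>
    gapS m _ n hm hd (by positivity) h hn hdn
  have h2 : ∀ C n j : ℕ, 1 ≤ C → 1 ≤ n → A ≤ j → 6 ^ j ∣ n → n ≤ 6 ^ (C * j) →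
      ∃ k : ℕ, SShallow n k ∧
        (k : ℝ) < (n : ℝ) ^ (1 - 1 / (8 * A * C * 6 ^ A : ℝ)) :=
    fun C n j hC hn hj hdv hnC => weakS m A hm hA hd h C n j hC hn hj hdv hnC
  refine ⟨A, hA, h1, fun a b ha hb => ?_, h2, fun j hj => ?_⟩
  · have h3 : 6 ^ A ∣ 2 ^ a * 3 ^ b := by
      have h4 : (6 : ℕ) ^ A = 2 ^ A * 3 ^ A := by rw [← mul_pow]; norm_num
      rw [h4]
      exact Nat.mul_dvd_mul (pow_dvd_pow 2 ha) (pow_dvd_pow 3 hb)
    have hpos : 0 < 2 ^ a * 3 ^ b := by positivity
    refine sshallow_mono (h1 _ hpos h3) ?_
    have h5 : 0 < 2 ^ a * 3 ^ b / 6 ^ A := Nat.div_pos (Nat.le_of_dvd hpos h3) (by positivity)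
    omega
  · obtain ⟨k, hk1, hk2⟩ := h2 1 (6 ^ j) j le_rfl (Nat.one_le_pow _ _ (by norm_num)) hj
      (dvd_refl _) (by rw [one_mul])
    refine ⟨k, hk1, ?_⟩
    rw [Nat.cast_one, mul_one] at hk2
    exact hk2

end Pool.Agent.Results.MP_d4e2f9_lc.PowersOfSix
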