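import Pool.Agent.H393.EW.Fin4

/-!
# Evasiveness fails for monotone properties of `r`-ary relations

For every arity `r ≥ 10` and every finite set `α` of at least `r` points there is a non-constant
monotone property of `r`-ary relations on `α`, invariant under all permutations of `α`, which has a
decision tree of depth at most `(1 - 1 / 7200) ^ ⌊r / 10⌋` times the number of variables.
(helper684, helper73, helper60, helper702, helper393)
-/

set_option autoImplicit false

namespace Pool.Agent.Results.MP_d4e2f9_lc.RelationProperties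

/-- Deterministic decision trees with queries in `X`; the first subtree is used if the answer is
`false`, the second one if it is `true`. -/
inductive Tree (X : Type) : Type
  | leaf (b : Bool) : Tree X
  | node (x : X) (t0 t1 : Tree X) : Tree X

namespace Tree

variable {X : Type}

/-- The output of a tree on an input. -/
def eval : Tree X → (X → Bool) → Bool
  | leaf b, _ => b
  | node x t0 t1, A => if A x = true then eval t1 A else eval t0 A

/-- The maximal number of queries. -/
def depth : Tree X → ℕ
  | leaf _ => 0
  | node _ t0 t1 => max (depth t0) (depth t1) + 1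

end Tree

/-- A (Boolean) `r`-ary relation on `α`, given on the `r`-tuples with distinct entries. -/
abbrev Rel (r : ℕ) (α : Type) : Type := (Fin r ↪ α) → Bool

/-- `F` is a property of `r`-ary relations on `α`: it is invariant under relabelling the points. -/
def IsProperty {r : ℕ} {α : Type} (F : Rel r α → Bool) : Prop :=
  ∀ (σ : Equiv.Perm α) (A : Rel r α), F (fun x => A (x.trans σ.toEmbedding)) = F A

/-- The decision tree complexity of `F` is at most `k`. -/
def DepthLE {X : Type} (F : (X → Bool) → Bool) (k : ℝ) : Prop :=
  ∃ T : Tree X, (∀ A, T.eval A = F A) ∧ (T.depth : ℝ) ≤ k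

open Pool.Agent.H128R2.Evas (DT)

/-- Translation of trees. -/
def tr {X : Type} : DT X → Tree X
  | .leaf b => .leaf b
  | .node x t0 t1 => .node x (tr t0) (tr t1)

theorem tr_eval {X : Type} (t : DT X) (A : X → Bool) : (tr t).eval A = t.eval A := by
  induction t with
  | leaf b => rfl
  | node x t0 t1 h0 h1 =>
    simp only [tr, Tree.eval, DT.eval, h0, h1]

theorem tr_depth {X : Type} (t : DT X) : (tr t).depth = t.depth := by
  induction t with
  | leaf b => rfl
  | node x t0 t1 h0 h1 =>
    simp only [tr, Tree.depth, DT.depth, h0, h1]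

/-- The symmetric group is transitive on the tuples, and there is a monotone property which is not
evasive. -/
theorem result (r : ℕ) (hr : 10 ≤ r) (α : Type) [Fintype α] [DecidableEq α]
    (hα : r ≤ Fintype.card α) :
    (∀ x y : Fin r ↪ α, ∃ σ : Equiv.Perm α, x.trans σ.toEmbedding = y) ∧
    ∃ F : Rel r α → Bool, Monotone F ∧ (∃ A B, F A ≠ F B) ∧ IsProperty F ∧
      DepthLE F ((1 - 1 / 7200) ^ (r / 10) * Fintype.card (Fin r ↪ α)) := by
  constructor
  · intro x y
    classical
    let e : Set.range x ≃ Set.range y :=
      (Equiv.ofInjective x x.injective).symm.trans (Equiv.ofInjective y y.injective)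
    refine ⟨e.extendSubtype, ?_⟩
    ext i
    show e.extendSubtype (x i) = y i
    rw [Equiv.extendSubtype_apply_of_mem e (x i) ⟨i, rfl⟩]
    show ((Equiv.ofInjective y y.injective) ((Equiv.ofInjective x x.injective).symm ⟨x i, _⟩)).1 = y i
    rw [Equiv.ofInjective_symm_apply]
    rfl
  · have hj : 1 ≤ r / 10 := (Nat.one_le_div_iff (by norm_num)).2 hr
    obtain ⟨F, T, h1, h2, h3, h4, h5, h6⟩ :=
      (Pool.Agent.H393.EW.datum4.pow (r / 10) hj).relations (r := r) (Nat.mul_div_le r 10) hα
    refine ⟨F, h1, ⟨fun _ => false, fun _ => true, by rw [h2, h3]; exact Bool.false_ne_true⟩, h4,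
      tr T, fun A => by rw [tr_eval, h5], ?_⟩
    rw [tr_depth]
    generalize r / 10 = j at h6 hj
    have h7 : ((T.depth * 7200 ^ j : ℕ) : ℝ) ≤
        (((7200 - 1) ^ j * Fintype.card (Fin r ↪ α) : ℕ) : ℝ) := Nat.cast_le.2 h6
    rw [Nat.cast_mul, Nat.cast_mul, Nat.cast_pow, Nat.cast_pow,
      Nat.cast_sub (by norm_num : 1 ≤ 7200), Nat.cast_one] at h7
    have e : (1 - 1 / (7200 : ℝ)) = (((7200 : ℕ) : ℝ) - 1) / ((7200 : ℕ) : ℝ) := by
      norm_num
    rw [e, div_pow, div_mul_eq_mul_div, le_div_iff₀ (pow_pos (by norm_num) _)]
    exact h7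

end Pool.Agent.Results.MP_d4e2f9_lc.RelationProperties
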