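import Pool.Agent.H73.FX.Ana

/-! # The evasiveness conjecture fails for all multiples n ≥ 540 of 180

The library results `PowersOfThirty` and `ManyDegrees` give non-evasive functions for the multiples
of `30 ^ 2404`. Here: for ALL multiples `n ≥ 540` of `180 = 2 ^ 2 · 3 ^ 2 · 5`.

Definitions (`Pool/Graph/R_seed8/Y825/EV/Many.lean`): `Shallow n k` says that some non-constant
monotone transitive Boolean function `f` of `n` variables is computed by a deterministic decision
tree of depth at most `k`, i.e. has `D(f) ≤ k`. -/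

set_option autoImplicit false

namespace Pool.Agent.Results.MP_d4e2f9_lc.SmallDegrees

open Pool.Agent.Y825.EV (Shallow)

/-- 1. For every multiple `n ≥ 540` of `180` there is a non-constant monotone
transitive Boolean function of `n` variables which is not evasive.
2. For all `t ≥ 3`, `r ≥ 1` and `j`, with `m = 180 t`, there is such a function of
`n = r m ^ j` variables with `D(f) ≤ r (m - 1) ^ j`.
3. In particular `D(f) ≤ n - n / 540` is possible for all positive multiples `n` of `540`.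
4. For the powers `n = 540 ^ j` there are such functions with
`D(f) ≤ n ^ (1 - 2.94 / 10 ^ 4)`.
5. If `30 ^ j` divides `n`, `j ≥ 2` and `n ≤ 30 ^ (C j)` then some such function of `n` variables
has `D(f) < n ^ (1 - 1 / (28800 · C))`; so weak evasiveness fails for instance for all
`n = 30 ^ j` with `j ≥ 2`. -/
theorem result :
    (∀ n : ℕ, 180 ∣ n → 540 ≤ n → Shallow n (n - 1)) ∧
    (∀ t r j : ℕ, 3 ≤ t → 1 ≤ r →
      Shallow (r * (180 * t) ^ j) (r * (180 * t - 1) ^ j)) ∧
    (∀ n : ℕ, 1 ≤ n → 540 ∣ n → Shallow n (n - n / 540)) ∧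
    (∀ j : ℕ, ∃ k : ℕ, Shallow (540 ^ j) k ∧
      (k : ℝ) ≤ ((540 ^ j : ℕ) : ℝ) ^ (1 - 2.94 / 10 ^ 4 : ℝ)) ∧
    (∀ C n j : ℕ, 1 ≤ C → 1 ≤ n → 2 ≤ j → 30 ^ j ∣ n → n ≤ 30 ^ (C * j) →
      ∃ k : ℕ, Shallow n k ∧ (k : ℝ) < (n : ℝ) ^ (1 - 1 / (28800 * C : ℝ))) := by
  refine ⟨fun n hd hn => Pool.Agent.H73.FX.every_multiple n hd (by omega), fun t r j ht hr => ?_,
    fun n hn hd => ?_, Pool.Agent.H73.FX.exponent, Pool.Agent.H73.FX.thirty⟩
  · rw [mul_comm 180 t]
    exact (Pool.Agent.H73.FX.main t ht).2 r j hr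
  · exact Pool.Agent.H73.FX.gap 3 n le_rfl hn hd

end Pool.Agent.Results.MP_d4e2f9_lc.SmallDegrees
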